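import Mathlib

/-!
`ℓ¹` with the norm `(‖x‖₁² + ‖x‖₂²)^{1/2}` is a locally uniformly convex Banach space, and the
kernel of `x ↦ ∑ (1 - 1/(n+2)) xₙ` is a closed hyperplane in which no point off it has a nearest
point.
-/

set_option autoImplicit false

open Set Filter Topology
open scoped ENNReal

namespace V1189.Lur

abbrev A := lp (fun _ : ℕ => ℝ) 1
abbrev B := lp (fun _ : ℕ => ℝ) 2

/-- the diagonal -/
noncomputable def S : Submodule ℝ (WithLp 2 (A × B)) where
  carrier := {p | ∀ n, p.fst n = p.snd n}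
  add_mem' := by
    intro a b ha hb n
    show a.fst n + b.fst n = a.snd n + b.snd n
    rw [ha n, hb n]
  zero_mem' := by
    intro n
    rfl
  smul_mem' := by
    intro c a ha n
    show c * a.fst n = c * a.snd n
    rw [ha n]

theorem isClosed_S : IsClosed (S : Set (WithLp 2 (A × B))) := by
  have : (S : Set (WithLp 2 (A × B))) = ⋂ n, {p | p.fst n = p.snd n} := by
    ext p
    simp only [mem_iInter]
    rfl
  rw [this]
  refine isClosed_iInter fun n => ?_
  have h1 : Continuous fun p : WithLp 2 (A × B) => p.fst n :=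
    (lp.lipschitzWith_one_eval 1 n).continuous.comp (by fun_prop)
  have h2 : Continuous fun p : WithLp 2 (A × B) => p.snd n :=
    (lp.lipschitzWith_one_eval 2 n).continuous.comp (by fun_prop)
  exact isClosed_eq h1 h2

abbrev E := ↥S

instance : CompleteSpace E := isClosed_S.completeSpace_coe

theorem norm_sq (x : E) : ‖x‖ ^ 2 = ‖x.1.fst‖ ^ 2 + ‖x.1.snd‖ ^ 2 :=
  WithLp.prod_norm_sq_eq_of_L2 x.1

theorem hasSum_abs (a : A) : HasSum (fun i => |a i|) ‖a‖ := by
  have := lp.hasSum_norm (p := 1) (by simp) a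
  simpa using this

theorem abs_le (b : B) (i : ℕ) : |b i| ≤ ‖b‖ := by
  have := lp.norm_apply_le_norm (p := 2) (by simp) b i
  simpa using this

/-- the key estimate -/
theorem l1_est (x y : E) (N : ℕ) {η : ℝ} (hN : ∑' i, |x.1.fst (i + N)| ≤ η) :
    ‖x.1.fst - y.1.fst‖ ≤ 2 * N * ‖x.1.snd - y.1.snd‖ + 2 * η + |‖x.1.fst‖ - ‖y.1.fst‖| := by
  have hx := hasSum_abs x.1.fst
  have hy := hasSum_abs y.1.fst
  have hd := hasSum_abs (x.1.fst - y.1.fst)
  have ex := hx.summable.sum_add_tsum_nat_add N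
  have ey := hy.summable.sum_add_tsum_nat_add N
  have ed := hd.summable.sum_add_tsum_nat_add N
  rw [hx.tsum_eq] at ex
  rw [hy.tsum_eq] at ey
  rw [hd.tsum_eq] at ed
  have sx := (summable_nat_add_iff N).2 hx.summable
  have sy := (summable_nat_add_iff N).2 hy.summable
  have sd := (summable_nat_add_iff N).2 hd.summable
  have h1 : ∑' i, |(x.1.fst - y.1.fst) (i + N)| ≤
      ∑' i, |x.1.fst (i + N)| + ∑' i, |y.1.fst (i + N)| := by
    rw [← sx.tsum_add sy]
    refine sd.tsum_le_tsum (fun i => ?_) (sx.add sy)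
    show |x.1.fst (i + N) - y.1.fst (i + N)| ≤ _
    exact abs_sub _ _
  have h2 : ∑ i ∈ Finset.range N, |(x.1.fst - y.1.fst) i| ≤ N * ‖x.1.snd - y.1.snd‖ := by
    calc ∑ i ∈ Finset.range N, |(x.1.fst - y.1.fst) i|
        ≤ ∑ i ∈ Finset.range N, ‖x.1.snd - y.1.snd‖ := by
          refine Finset.sum_le_sum fun i _ => ?_
          have e : (x.1.fst - y.1.fst) i = (x.1.snd - y.1.snd) i := by
            show x.1.fst i - y.1.fst i = x.1.snd i - y.1.snd i
            rw [x.2 i, y.2 i]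
          rw [e]
          exact abs_le _ i
      _ = N * ‖x.1.snd - y.1.snd‖ := by simp
  have h3 : ∑ i ∈ Finset.range N, |x.1.fst i| ≤
      ∑ i ∈ Finset.range N, |y.1.fst i| + ∑ i ∈ Finset.range N, |(x.1.fst - y.1.fst) i| := by
    rw [← Finset.sum_add_distrib]
    refine Finset.sum_le_sum fun i _ => ?_
    show |x.1.fst i| ≤ |y.1.fst i| + |x.1.fst i - y.1.fst i|
    have := abs_add_le (y.1.fst i) (x.1.fst i - y.1.fst i)
    rwa [add_sub_cancel] at this
  have h4 := neg_abs_le (‖x.1.fst‖ - ‖y.1.fst‖)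
  linarith

theorem lur (x : E) (hx : ‖x‖ = 1) (ε : ℝ) (hε : 0 < ε) : ∃ δ : ℝ, 0 < δ ∧
    ∀ y : E, ‖y‖ = 1 → ε ≤ ‖x - y‖ → ‖x + y‖ ≤ 2 - 2 * δ := by
  have hs := (hasSum_abs x.1.fst).summable
  have ht := tendsto_sum_nat_add (fun i => |x.1.fst i|)
  obtain ⟨N, hN⟩ := ((tendsto_order.1 ht).2 (ε / 8) (by positivity)).exists
  set c : ℝ := 2 * N + 2 with hc
  have hcpos : 0 < c := by positivity
  refine ⟨(ε / (2 * c)) ^ 2 / 8, by positivity, ?_⟩
  intro y hy hxy
  by_contra hcon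
  push Not at hcon
  set d : ℝ := ε / (2 * c) with hd
  have hdpos : 0 < d := by positivity
  have n1 := norm_sq (x + y)
  have n2 := norm_sq x
  have n3 := norm_sq y
  rw [hx] at n2
  rw [hy] at n3
  have a1 : (x + y).1.fst = x.1.fst + y.1.fst := rfl
  have a2 : (x + y).1.snd = x.1.snd + y.1.snd := rfl
  rw [a1, a2] at n1
  have p1 : ‖x.1.fst + y.1.fst‖ ≤ ‖x.1.fst‖ + ‖y.1.fst‖ := norm_add_le _ _
  have p2 := parallelogram_law_with_norm ℝ x.1.snd y.1.snd
  have b1 : ‖x.1.fst + y.1.fst‖ ^ 2 ≤ (‖x.1.fst‖ + ‖y.1.fst‖) ^ 2 :=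
    pow_le_pow_left₀ (norm_nonneg _) p1 2
  have hle : ‖x + y‖ ≤ 2 := by
    have := norm_add_le x y
    rw [hx, hy] at this
    linarith
  have key : (‖x.1.fst‖ - ‖y.1.fst‖) ^ 2 + ‖x.1.snd - y.1.snd‖ ^ 2 < d ^ 2 := by
    have h4 : 4 - ‖x + y‖ ^ 2 < d ^ 2 := by
      have h5 : (2 - ‖x + y‖) < 2 * (d ^ 2 / 8) := by linarith
      have h6 : 0 ≤ 2 - ‖x + y‖ := by linarith
      have h7 : 0 ≤ ‖x + y‖ := norm_nonneg _
      have h8 : 4 - ‖x + y‖ ^ 2 ≤ 4 * (2 - ‖x + y‖) := by
        have := mul_nonneg h6 h6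
        linarith [show 4 * (2 - ‖x + y‖) - (4 - ‖x + y‖ ^ 2) = (2 - ‖x + y‖) * (2 - ‖x + y‖) by ring]
      linarith
    have e1 : (‖x.1.fst‖ - ‖y.1.fst‖) ^ 2 = 2 * ‖x.1.fst‖ ^ 2 + 2 * ‖y.1.fst‖ ^ 2
      - (‖x.1.fst‖ + ‖y.1.fst‖) ^ 2 := by ring
    have e2 : ‖x.1.snd - y.1.snd‖ ^ 2 = 2 * ‖x.1.snd‖ ^ 2 + 2 * ‖y.1.snd‖ ^ 2
      - ‖x.1.snd + y.1.snd‖ ^ 2 := by linarith
    rw [e1, e2]
    linarith
  have q1 : |‖x.1.fst‖ - ‖y.1.fst‖| ≤ d := by
    apply abs_le_of_sq_le_sq _ hdpos.le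
    linarith [sq_nonneg ‖x.1.snd - y.1.snd‖]
  have q2 : ‖x.1.snd - y.1.snd‖ ≤ d := by
    apply le_of_sq_le_sq _ hdpos.le
    linarith [sq_nonneg (‖x.1.fst‖ - ‖y.1.fst‖)]
  have q3 := l1_est x y N hN.le
  have q4 : ‖x - y‖ ≤ ‖x.1.fst - y.1.fst‖ + ‖x.1.snd - y.1.snd‖ := by
    have n4 := norm_sq (x - y)
    have a3 : (x - y).1.fst = x.1.fst - y.1.fst := rfl
    have a4 : (x - y).1.snd = x.1.snd - y.1.snd := rfl
    rw [a3, a4] at n4
    apply le_of_sq_le_sq _ (by positivity)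
    rw [n4]
    have := mul_nonneg (norm_nonneg (x.1.fst - y.1.fst)) (norm_nonneg (x.1.snd - y.1.snd))
    linarith [show (‖x.1.fst - y.1.fst‖ + ‖x.1.snd - y.1.snd‖) ^ 2 = ‖x.1.fst - y.1.fst‖ ^ 2
      + ‖x.1.snd - y.1.snd‖ ^ 2 + 2 * (‖x.1.fst - y.1.fst‖ * ‖x.1.snd - y.1.snd‖) by ring]
  have q5 : 2 * N * ‖x.1.snd - y.1.snd‖ ≤ 2 * N * d := by
    apply mul_le_mul_of_nonneg_left q2
    positivity
  have q6 : c * d = ε / 2 := by
    rw [hd]; field_simp
  have q7 : c * d = 2 * N * d + 2 * d := by rw [hc]; ring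
  linarith

/-- the coefficients -/
noncomputable def co (n : ℕ) : ℝ := 1 - 1 / ((n:ℝ) + 2)

theorem co_nonneg (n : ℕ) : 0 ≤ co n := by
  unfold co
  have : 1 / ((n:ℝ) + 2) ≤ 1 := by
    rw [div_le_one (by positivity)]
    have : (0:ℝ) ≤ n := Nat.cast_nonneg n
    linarith
  linarith

theorem co_lt (n : ℕ) : co n < 1 := by
  unfold co
  have : 0 < 1 / ((n:ℝ) + 2) := by positivity
  linarith

theorem abs_co_mul (a : A) (n : ℕ) : |co n * a n| ≤ |a n| := by
  rw [abs_mul, abs_of_nonneg (co_nonneg n)]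
  have := abs_nonneg (a n)
  have := co_lt n
  nlinarith

theorem summable_co (a : A) : Summable fun n => co n * a n :=
  Summable.of_norm_bounded (hasSum_abs a).summable fun n => abs_co_mul a n

/-- the functional -/
noncomputable def fl : A →ₗ[ℝ] ℝ where
  toFun a := ∑' n, co n * a n
  map_add' := by
    intro a b
    rw [← (summable_co a).tsum_add (summable_co b)]
    congr 1; ext n
    show co n * (a n + b n) = _
    ring
  map_smul' := by
    intro c a
    simp only [RingHom.id_apply, smul_eq_mul]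
    rw [← tsum_mul_left]
    congr 1; ext n
    show co n * (c * a n) = _
    ring

theorem abs_fl_le' (a : A) : |fl a| ≤ ∑' n, co n * |a n| := by
  have hs : Summable fun n => co n * |a n| := by
    have := (summable_co a).abs
    refine this.congr fun n => ?_
    rw [abs_mul, abs_of_nonneg (co_nonneg n)]
  have := norm_tsum_le_tsum_norm (f := fun n => co n * a n) (by
    simpa [abs_mul, abs_of_nonneg (co_nonneg _)] using hs)
  simp only [Real.norm_eq_abs, abs_mul, abs_of_nonneg (co_nonneg _)] at this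
  exact this

theorem abs_fl_le (a : A) : |fl a| ≤ 1 * ‖a‖ := by
  refine (abs_fl_le' a).trans ?_
  rw [one_mul, ← (hasSum_abs a).tsum_eq]
  have hs : Summable fun n => co n * |a n| := by
    have := (summable_co a).abs
    refine this.congr fun n => ?_
    rw [abs_mul, abs_of_nonneg (co_nonneg n)]
  refine hs.tsum_le_tsum (fun n => ?_) (hasSum_abs a).summable
  have := abs_nonneg (a n)
  have := co_lt n
  nlinarith

theorem abs_fl_lt {a : A} (ha : a ≠ 0) : |fl a| < ‖a‖ := by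
  refine (abs_fl_le' a).trans_lt ?_
  rw [← (hasSum_abs a).tsum_eq]
  have hs : Summable fun n => co n * |a n| := by
    have := (summable_co a).abs
    refine this.congr fun n => ?_
    rw [abs_mul, abs_of_nonneg (co_nonneg n)]
  have : ∃ n, a n ≠ 0 := by
    by_contra h
    push Not at h
    exact ha (lp.ext (funext h))
  obtain ⟨m, hm⟩ := this
  refine Summable.tsum_lt_tsum (i := m) (fun n => ?_) ?_ hs (hasSum_abs a).summable
  · have := abs_nonneg (a n)
    have := co_lt n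
    nlinarith
  · have := abs_pos.2 hm
    have := co_lt m
    nlinarith

noncomputable def flc : A →L[ℝ] ℝ := fl.mkContinuous 1 abs_fl_le

/-- the functional on `E` -/
noncomputable def F (x : E) : ℝ := flc x.1.fst

theorem F_eq (x : E) : F x = fl x.1.fst := rfl

theorem F_sub (x y : E) : F (x - y) = F x - F y := by
  show flc (x.1.fst - y.1.fst) = _
  rw [map_sub]; rfl

theorem F_add (x y : E) : F (x + y) = F x + F y := by
  show flc (x.1.fst + y.1.fst) = _
  rw [map_add]; rfl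

theorem F_smul (c : ℝ) (x : E) : F (c • x) = c * F x := by
  show flc (c • x.1.fst) = _
  rw [map_smul]; rfl

theorem continuous_F : Continuous F := by
  unfold F
  exact flc.continuous.comp ((by fun_prop : Continuous fun p : WithLp 2 (A × B) => p.fst).comp
    continuous_subtype_val)

theorem norm_fst_le (x : E) : ‖x.1.fst‖ ≤ ‖x‖ := by
  apply le_of_sq_le_sq _ (norm_nonneg _)
  rw [norm_sq]
  nlinarith [sq_nonneg ‖x.1.snd‖]

theorem F_lt {x : E} (hx : F x ≠ 0) : |F x| < ‖x‖ := by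
  have : x.1.fst ≠ 0 := by
    intro h
    apply hx
    rw [F_eq, h, map_zero]
  rw [F_eq]
  exact (abs_fl_lt this).trans_le (norm_fst_le x)

/-- almost norming vectors -/
theorem fl_single (i : ℕ) (c : ℝ) : fl (lp.single 1 i c) = co i * c := by
  show ∑' n, co n * (lp.single (E := fun _ : ℕ => ℝ) 1 i c) n = _
  rw [tsum_eq_single i]
  · simp
  · intro n hn
    simp [hn]

theorem co_mono {i j : ℕ} (h : i ≤ j) : co i ≤ co j := by
  unfold co
  have h1 : (i:ℝ) ≤ j := by exact_mod_cast h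
  have : 1 / ((j:ℝ) + 2) ≤ 1 / ((i:ℝ) + 2) := by
    apply one_div_le_one_div_of_le
    · positivity
    · linarith
  linarith

theorem exists_norming {θ : ℝ} (hθ : 1 < θ) : ∃ v : E, 0 < F v ∧ ‖v‖ < θ * F v := by
  obtain ⟨n, hn⟩ := exists_nat_one_div_lt (show 0 < (θ - 1) / (θ + 1) from
    div_pos (by linarith) (by linarith))
  set N : ℕ := n + 1 with hN
  set t : ℝ := 1 / (N : ℝ) with ht
  have hNpos : (0:ℝ) < N := by rw [hN]; positivity
  have htpos : 0 < t := by positivity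
  have hn' : t < (θ - 1) / (θ + 1) := by rw [ht, hN]; push_cast; exact hn
  rw [lt_div_iff₀ (by linarith)] at hn'
  set s : Finset ℕ := Finset.Ico N (2 * N) with hs
  have hcard : (s.card : ℝ) = N := by
    rw [hs, Nat.card_Ico]
    congr 1
    omega
  have hNt : (N:ℝ) * t = 1 := by rw [ht]; field_simp
  let a : A := ∑ i ∈ s, lp.single 1 i t
  let b : B := ∑ i ∈ s, lp.single 2 i t
  have ha : ‖a‖ = 1 := by
    have := lp.norm_sum_single (E := fun _ : ℕ => ℝ) (p := 1) (by simp) (fun _ => t) s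
    simp only [ENNReal.toReal_one, Real.rpow_one, Real.norm_eq_abs, abs_of_pos htpos,
      Finset.sum_const, nsmul_eq_mul, hcard, hNt] at this
    exact this
  have hb : ‖b‖ ^ 2 = t := by
    have := lp.norm_sum_single (E := fun _ : ℕ => ℝ) (p := 2) (by simp) (fun _ => t) s
    simp only [ENNReal.toReal_ofNat, Real.norm_eq_abs, abs_of_pos htpos,
      Finset.sum_const, nsmul_eq_mul, hcard, Real.rpow_ofNat] at this
    rw [show b = ∑ i ∈ s, lp.single 2 i t from rfl, this, pow_two, ← mul_assoc, hNt, one_mul]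
  have hab : ∀ m, a m = b m := by
    intro m
    show (∑ i ∈ s, lp.single (E := fun _ : ℕ => ℝ) 1 i t : A) m
      = (∑ i ∈ s, lp.single (E := fun _ : ℕ => ℝ) 2 i t : B) m
    rw [lp.coeFn_sum, lp.coeFn_sum, Finset.sum_apply, Finset.sum_apply]
    refine Finset.sum_congr rfl fun i _ => ?_
    rw [lp.single_apply, lp.single_apply]
  let v : E := ⟨WithLp.toLp 2 (a, b), hab⟩
  have hv : ‖v‖ ≤ 1 + t := by
    apply le_of_sq_le_sq _ (by positivity)
    rw [norm_sq]
    show ‖a‖ ^ 2 + ‖b‖ ^ 2 ≤ _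
    rw [ha, hb]
    nlinarith
  have hF : 1 - t ≤ F v := by
    rw [F_eq]
    show 1 - t ≤ fl a
    have e : fl a = ∑ i ∈ s, co i * t := by
      show fl (∑ i ∈ s, lp.single 1 i t) = _
      rw [map_sum]
      exact Finset.sum_congr rfl fun i _ => fl_single i t
    have e2 : ∑ i ∈ s, co N * t ≤ ∑ i ∈ s, co i * t := by
      refine Finset.sum_le_sum fun i hi => ?_
      apply mul_le_mul_of_nonneg_right _ htpos.le
      exact co_mono (Finset.mem_Ico.1 hi).1
    rw [Finset.sum_const, nsmul_eq_mul, hcard] at e2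
    have e3 : (N:ℝ) * (co N * t) = co N := by
      rw [mul_comm (co N), ← mul_assoc, hNt, one_mul]
    rw [e3] at e2
    rw [e]
    refine le_trans ?_ e2
    unfold co
    have : 1 / ((N:ℝ) + 2) ≤ t := by
      rw [ht]
      apply one_div_le_one_div_of_le hNpos
      linarith
    linarith
  refine ⟨v, ?_, ?_⟩
  · have : t < 1 := by nlinarith
    linarith
  · have h1 : 1 + t < θ * (1 - t) := by nlinarith
    have h2 : θ * (1 - t) ≤ θ * F v := mul_le_mul_of_nonneg_left hF (by linarith)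
    linarith

def G : Set E := {x | F x = 0}

theorem isClosed_G : IsClosed G := isClosed_eq continuous_F continuous_const

theorem infDist_le {x v : E} (hv : 0 < F v) : Metric.infDist x G ≤ |F x| * (‖v‖ / F v) := by
  have hm : x - (F x / F v) • v ∈ G := by
    show F _ = 0
    rw [F_sub, F_smul]
    field_simp
    ring
  refine (Metric.infDist_le_dist_of_mem hm).trans ?_
  rw [dist_eq_norm, sub_sub_cancel, norm_smul, Real.norm_eq_abs, abs_div, abs_of_pos hv]
  apply le_of_eq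
  ring

theorem no_nearest {x g : E} (hx : F x ≠ 0) (hg : g ∈ G) : dist x g ≠ Metric.infDist x G := by
  intro h
  have h1 : F (x - g) = F x := by
    rw [F_sub]
    have : F g = 0 := hg
    rw [this, sub_zero]
  have h2 : |F x| < dist x g := by
    rw [dist_eq_norm, ← h1]
    exact F_lt (by rw [h1]; exact hx)
  have h3 : 0 < |F x| := abs_pos.2 hx
  have h4 : 1 < dist x g / |F x| := by rwa [one_lt_div h3]
  obtain ⟨v, hv, hv2⟩ := exists_norming h4
  have h5 := infDist_le (x := x) hv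
  rw [← h] at h5
  have h6 : ‖v‖ / F v < dist x g / |F x| := by
    rwa [div_lt_iff₀ hv]
  have h7 : |F x| * (‖v‖ / F v) < |F x| * (dist x g / |F x|) := mul_lt_mul_of_pos_left h6 h3
  rw [mul_div_cancel₀ _ h3.ne'] at h7
  linarith

theorem isMeagre_G : IsMeagre G := by
  apply IsNowhereDense.isMeagre
  rw [isClosed_G.isNowhereDense_iff]
  by_contra hne
  obtain ⟨x, hx⟩ := nonempty_iff_ne_empty.2 hne
  obtain ⟨v, hv, -⟩ := exists_norming one_lt_two
  have hc : Tendsto (fun t : ℝ => x + t • v) (𝓝 0) (𝓝 (x + (0:ℝ) • v)) := by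
    apply Continuous.tendsto
    fun_prop
  rw [zero_smul, add_zero] at hc
  have h1 := hc.eventually (mem_interior_iff_mem_nhds.1 hx)
  have h2 : ∀ᶠ t : ℝ in 𝓝[>] 0, x + t • v ∈ G := h1.filter_mono nhdsWithin_le_nhds
  obtain ⟨t, ht, ht0⟩ := (h2.and self_mem_nhdsWithin).exists
  have h3 : F (x + t • v) = 0 := ht
  rw [F_add, F_smul] at h3
  have h4 : x ∈ G := interior_subset hx
  have h4 : F x = 0 := h4
  rw [h4, zero_add] at h3
  have : 0 < t * F v := mul_pos ht0 hv
  linarith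

theorem isMeagre_P : IsMeagre {x : E | ∃! y : E, y ∈ G ∧ dist x y = Metric.infDist x G} := by
  apply isMeagre_G.mono
  rintro x ⟨y, ⟨hy, hy2⟩, -⟩
  by_contra hx
  exact no_nearest hx hy hy2

end V1189.Lur
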